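import Pool.Agent.Lib.MP_3e0ca7_an.Main

open Polynomial

namespace Pool.Agent.Results.MP_3e0ca7_an.HermiteSum

/-- The integral of a polynomial against the Jacobi measure `(1-t)^α (1+t)^β dt` on `[-1,1]`. -/
noncomputable def jacobiInt (α β : ℝ) (p : ℝ[X]) : ℝ :=
  ∫ t in (-1 : ℝ)..1, p.eval t * ((1 - t) ^ α * (1 + t) ^ β)

/-- `g_n(t) ≤ 1` on `[-1,1]` for all `-1 < β ≤ α ≤ α₀` and all `n ≥ 2`. -/
theorem result (α₀ : ℝ) (h₀ : α₀ ∈ Set.Ioo (-1 : ℝ) 0)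
    (hα₀ : α₀ ^ 2 * (3 + α₀) ^ 4 + (1 + α₀) ^ 4 * (4 + α₀) ^ 2 +
      (4 : ℝ) ^ (3 - α₀) * ((1 + α₀) ^ 4 * (2 + α₀) ^ 2 / (3 + α₀) ^ 2) = 16)
    (α β : ℝ) (hβ : -1 < β) (hβα : β ≤ α) (hα : α ≤ α₀) (n : ℕ) (hn : 2 ≤ n)
    (P : ℝ[X]) (_hP : P.degree = n)
    (_horth : ∀ q : ℝ[X], q.degree < n → jacobiInt α β (P * q) = 0)
    (τ : Fin n → ℝ) (hτ : Function.Injective τ) (_hzero : ∀ ν, P.eval (τ ν) = 0)
    (h k : Fin n → ℝ[X])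
    (hdeg : ∀ ν, (h ν).degree ≤ (2 * n - 1 : ℕ)) (kdeg : ∀ ν, (k ν).degree ≤ (2 * n - 1 : ℕ))
    (hval : ∀ ν μ, (h ν).eval (τ μ) = if ν = μ then 1 else 0)
    (hder : ∀ ν μ, (derivative (h ν)).eval (τ μ) = 0)
    (kval : ∀ ν μ, (k ν).eval (τ μ) = 0)
    (kder : ∀ ν μ, (derivative (k ν)).eval (τ μ) = if ν = μ then 1 else 0)
    (σ : Fin n → ℝ)
    (hσ : ∀ p : ℝ[X], p.degree ≤ (2 * n - 1 : ℕ) → jacobiInt α β p = ∑ ν, σ ν * p.eval (τ ν))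
    (t : ℝ) (ht : t ∈ Set.Icc (-1 : ℝ) 1) :
    ∑ ν, ((h ν).eval t ^ 2 + (σ ν)⁻¹ ^ 2 * (k ν).eval t ^ 2) ≤ 1 := by
  have ha : 0 < α + 1 := by linarith
  have hb : 0 < β + 1 := by linarith
  have e := Lib.MP_3e0ca7_an.Phi_crit h₀.1 hα₀
  have lt : ((2 * n - 1 : ℕ) : WithBot ℕ) < (2 * n : ℕ) := by exact_mod_cast (by omega)
  have hq : Lib.MP_3e0ca7_an.Quad (α + 1) (β + 1) (Lib.MP_3e0ca7_an.IJ ha hb) n τ σ := by
    refine ⟨Lib.MP_3e0ca7_an.IJ_PF ha hb, hτ, fun f hf => ?_⟩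
    rw [← hσ f, Lib.MP_3e0ca7_an.IJ_apply]
    · simp [jacobiInt, Lib.MP_3e0ca7_an.wt]
    · by_cases f0 : f = 0
      · simp [f0]
      · rw [degree_eq_natDegree f0] at hf ⊢
        have : f.natDegree < 2 * n := by exact_mod_cast hf
        exact_mod_cast (by omega)
  have key := Lib.MP_3e0ca7_an.main ha hb (by linarith [h₀.2]) (by linarith [h₀.2])
    (e ▸ Lib.MP_3e0ca7_an.Phi_mono ha.le (by linarith) (by linarith [h₀.2]))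
    (e ▸ Lib.MP_3e0ca7_an.Phi_mono hb.le (by linarith) (by linarith [h₀.2])) hq hn ht.1 ht.2
  refine le_trans (le_of_eq (Finset.sum_congr rfl fun ν _ => ?_)) key
  rw [hq.eq_hpol ν ((hdeg ν).trans_lt lt) (hval ν) (hder ν),
    hq.eq_kpol ν ((kdeg ν).trans_lt lt) (kval ν) (kder ν)]

end Pool.Agent.Results.MP_3e0ca7_an.HermiteSum
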